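import Mathlib.Algebra.Field.ZMod
import Mathlib.Algebra.Order.Ring.Star
import Mathlib.Analysis.Normed.Field.Basic
import Mathlib.Algebra.Order.Star.Real
import Mathlib.Algebra.Ring.IsFormallyReal
import Mathlib.AlgebraicGeometry.EllipticCurve.Affine.Point
import Mathlib.RingTheory.SimpleRing.Principal
import Mathlib.RingTheory.Henselian
import Mathlib.RingTheory.RegularLocalRing.Defs
import Mathlib.Tactic.Algebra.Basic

-- ======== part 0: formerly Pool.Agent.MP_6a61d2_nt.Basic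
section MrgPart0

/-! The curve `y ^ 2 = x ^ 3 + a x ^ 2 + b x`: addition formulas and the kernel of reduction
(adapted from the Legendre case in the folder of problem 9207e0). -/

set_option linter.unusedSectionVars false
set_option linter.unusedVariables false

namespace Pool.Agent.MP_6a61d2_nt

open WeierstrassCurve.Affine

/-- The curve `y ^ 2 = x ^ 3 + a x ^ 2 + b x`. -/
def cv {F : Type} [Field F] (a b : F) : WeierstrassCurve.Affine F := ⟨0, a, 0, b, 0⟩

variable {F : Type} [Field F] {a b : F}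

/-- The right-hand side of the equation. -/
def fl (a b x : F) : F := x ^ 3 + a * x ^ 2 + b * x

lemma cv_eq (x y : F) : (cv a b).Equation x y ↔ y ^ 2 = fl a b x := by
  rw [equation_iff]
  simp only [cv, fl]
  constructor <;> intro h <;> linear_combination h

lemma cv_negY (x y : F) : (cv a b).negY x y = -y := by
  simp [cv, negY]

lemma cv_delta : (cv a b).Δ = 16 * b ^ 2 * (a ^ 2 - 4 * b) := by
  simp only [cv, WeierstrassCurve.Δ, WeierstrassCurve.b₂, WeierstrassCurve.b₄,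
    WeierstrassCurve.b₆, WeierstrassCurve.b₈]
  ring

lemma cv_c4 : (cv a b).c₄ = 16 * (a ^ 2 - 3 * b) := by
  simp only [cv, WeierstrassCurve.c₄, WeierstrassCurve.b₂, WeierstrassCurve.b₄]
  ring

/-- The `x`-coordinate of the sum. -/
def sX (a x1 x2 L : F) : F := L ^ 2 - a - x1 - x2

/-- The `y`-coordinate of the sum. -/
def sY (a x1 x2 y1 L : F) : F := -(L * (sX a x1 x2 L - x1) + y1)

lemma cv_addX (x1 x2 L : F) : (cv a b).addX x1 x2 L = sX a x1 x2 L := by
  simp only [cv, addX, sX]; ring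

lemma cv_addY (x1 x2 y1 L : F) : (cv a b).addY x1 x2 y1 L = sY a x1 x2 y1 L := by
  rw [addY, cv_negY, negAddY, cv_addX, sY]

variable [DecidableEq F]

lemma some_congr {x y x' y' : F} (h : (cv a b).Nonsingular x y) (hx : x = x') (hy : y = y') :
    ∃ h', Point.some x y h = Point.some x' y' h' := by
  subst hx hy
  exact ⟨h, rfl⟩

lemma cv_neg {x y : F} (h : (cv a b).Nonsingular x y) :
    ∃ h', -Point.some x y h = Point.some x (-y) h' := by
  rw [Point.neg_some]
  exact some_congr _ rfl (cv_negY x y)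

lemma add_X_ne {x1 x2 y1 y2 : F} (h1 : (cv a b).Nonsingular x1 y1)
    (h2 : (cv a b).Nonsingular x2 y2) (hx : x1 ≠ x2) :
    ∃ h, Point.some x1 y1 h1 + Point.some x2 y2 h2 =
      Point.some (sX a x1 x2 ((y1 - y2) / (x1 - x2))) (sY a x1 x2 y1 ((y1 - y2) / (x1 - x2))) h := by
  rw [Point.add_of_X_ne hx]
  refine some_congr _ ?_ ?_
  · rw [slope_of_X_ne hx, cv_addX]
  · rw [slope_of_X_ne hx, cv_addY]

lemma add_self_ne [CharZero F] {x y : F} (h : (cv a b).Nonsingular x y) (hy : y ≠ 0) :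
    ∃ h', Point.some x y h + Point.some x y h =
      Point.some (sX a x x ((3 * x ^ 2 + 2 * a * x + b) / (2 * y)))
        (sY a x x y ((3 * x ^ 2 + 2 * a * x + b) / (2 * y))) h' := by
  have hy' : y ≠ (cv a b).negY x y := by
    rw [cv_negY]
    intro h0
    exact hy (by linear_combination (1 / 2 : F) * h0)
  have hs : (cv a b).slope x x y y = (3 * x ^ 2 + 2 * a * x + b) / (2 * y) := by
    rw [slope_of_Y_ne rfl hy', cv_negY]
    simp only [cv]
    congr 1 <;> ring
  rw [Point.add_self_of_Y_ne hy']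
  refine some_congr _ ?_ ?_
  · rw [hs, cv_addX]
  · rw [hs, cv_addY]

lemma two_smul_some [CharZero F] {x y : F} (h : (cv a b).Nonsingular x y) :
    2 • Point.some x y h = 0 ↔ y = 0 := by
  rw [two_nsmul]
  constructor
  · intro h0
    by_contra hy
    obtain ⟨h', e⟩ := add_self_ne h hy
    rw [e] at h0
    exact Point.some_ne_zero _ h0
  · intro hy
    exact Point.add_self_of_Y_eq (by rw [cv_negY, hy, neg_zero])

/-- The chord and tangent construction with the relations between roots and coefficients. -/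
lemma add_vieta [CharZero F] {x1 x2 y1 y2 : F} (h1 : (cv a b).Nonsingular x1 y1)
    (h2 : (cv a b).Nonsingular x2 y2) (hxy : ¬(x1 = x2 ∧ y1 = -y2)) :
    ∃ (L m x3 : F) (h3 : (cv a b).Nonsingular x3 (-(L * x3 + m))),
      Point.some x1 y1 h1 + Point.some x2 y2 h2 = Point.some x3 (-(L * x3 + m)) h3 ∧
      y1 = L * x1 + m ∧ y2 = L * x2 + m ∧ x1 + x2 + x3 = L ^ 2 - a ∧
      x1 * x2 + x1 * x3 + x2 * x3 = b - 2 * L * m ∧ x1 * x2 * x3 = m ^ 2 := by
  have e1 := (cv_eq _ _).mp h1.1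
  have e2 := (cv_eq _ _).mp h2.1
  unfold fl at e1 e2
  by_cases hx : x1 = x2
  · subst hx
    have hy : y1 = y2 := by
      have : (y1 - y2) * (y1 + y2) = 0 := by linear_combination e1 - e2
      rcases mul_eq_zero.mp this with h | h
      · exact sub_eq_zero.mp h
      · exact absurd ⟨rfl, eq_neg_of_add_eq_zero_left h⟩ hxy
    subst hy
    have hy0 : y1 ≠ 0 := by
      rintro rfl
      exact hxy ⟨rfl, neg_zero.symm⟩
    obtain ⟨h', e⟩ := add_self_ne h1 hy0
    set L := (3 * x1 ^ 2 + 2 * a * x1 + b) / (2 * y1) with hL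
    have hL' : 2 * y1 * L = 3 * x1 ^ 2 + 2 * a * x1 + b := by
      rw [hL]; field_simp
    obtain ⟨h'', e'⟩ := some_congr h' (x' := sX a x1 x1 L)
      (y' := -(L * sX a x1 x1 L + (y1 - L * x1))) rfl (by rw [sY]; ring)
    refine ⟨L, y1 - L * x1, sX a x1 x1 L, h'', e.trans e', by ring, by ring, ?_, ?_, ?_⟩
    · rw [sX]; ring
    · rw [sX]; linear_combination hL'
    · rw [sX]; linear_combination x1 * hL' - e1
  · obtain ⟨h', e⟩ := add_X_ne h1 h2 hx
    set L := (y1 - y2) / (x1 - x2) with hL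
    have hx' := sub_ne_zero.mpr hx
    have hL' : y2 = y1 - L * (x1 - x2) := by
      rw [hL]; field_simp; ring
    obtain ⟨h'', e'⟩ := some_congr h' (x' := sX a x1 x2 L)
      (y' := -(L * sX a x1 x2 L + (y1 - L * x1))) rfl (by rw [sY]; ring)
    have k1 : x1 * x2 + x1 * sX a x1 x2 L + x2 * sX a x1 x2 L = b - 2 * L * (y1 - L * x1) := by
      apply mul_left_cancel₀ hx'
      rw [sX]
      rw [hL'] at e2
      linear_combination e1 - e2
    refine ⟨L, y1 - L * x1, sX a x1 x2 L, h'', e.trans e', by ring, by rw [hL']; ring, ?_, k1,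
      ?_⟩
    · rw [sX]; ring
    · rw [sX] at k1 ⊢
      linear_combination x1 * k1 - e1

section NA

variable {v : AbsoluteValue F ℝ} (na : IsNonarchimedean v)
include na

lemma na_add_le {r s : F} {B : ℝ} (ha : v r ≤ B) (hb : v s ≤ B) : v (r + s) ≤ B :=
  (na r s).trans (max_le ha hb)

lemma na_add_lt {r s : F} {B : ℝ} (ha : v r < B) (hb : v s < B) : v (r + s) < B :=
  (na r s).trans_lt (max_lt ha hb)

lemma na_sub_le {r s : F} {B : ℝ} (ha : v r ≤ B) (hb : v s ≤ B) : v (r - s) ≤ B := by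
  rw [sub_eq_add_neg]
  exact na_add_le na ha (by rwa [v.map_neg])

lemma na_sub_lt {r s : F} {B : ℝ} (ha : v r < B) (hb : v s < B) : v (r - s) < B := by
  rw [sub_eq_add_neg]
  exact na_add_lt na ha (by rwa [v.map_neg])

lemma na_add_eq {r s : F} (h : v s < v r) : v (r + s) = v r := by
  refine le_antisymm (na_add_le na le_rfl h.le) ?_
  by_contra hc
  have := na_sub_lt na (not_le.mp hc) h
  rw [add_sub_cancel_right] at this
  exact lt_irrefl _ this

lemma na_sub_eq {r s : F} (h : v s < v r) : v (r - s) = v r := by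
  rw [sub_eq_add_neg]
  exact na_add_eq na (by rwa [v.map_neg])

lemma na_nat (n : ℕ) : v n ≤ 1 := by
  induction n with
  | zero => simp
  | succ n ih => rw [Nat.cast_succ]; exact na_add_le na ih (by simp)

lemma na_int (n : ℤ) : v n ≤ 1 := by
  obtain ⟨k, rfl | rfl⟩ := n.eq_nat_or_neg
  · simpa using na_nat na k
  · simpa using na_nat na k

end NA

variable {v : AbsoluteValue F ℝ}

lemma big_y (na : IsNonarchimedean v) (hl : v a ≤ 1 ∧ v b ≤ 1) {x y : F} (e : y ^ 2 = fl a b x)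
    (hx : 1 < v x) : v y ^ 2 = v x ^ 3 := by
  have h0 : 0 < v x := zero_lt_one.trans hx
  have h1 : v (a * x ^ 2 + b * x) < v (x ^ 3) := by
    refine na_add_lt na ?_ ?_
    · rw [v.map_mul, v.map_pow, v.map_pow]
      calc v a * v x ^ 2 ≤ 1 * v x ^ 2 := by gcongr; exact hl.1
        _ < v x * v x ^ 2 := by gcongr
        _ = v x ^ 3 := by ring
    · rw [v.map_mul, v.map_pow]
      calc v b * v x ≤ 1 * v x := by gcongr; exact hl.2
        _ < v x ^ 2 * v x := by gcongr; nlinarith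
        _ = v x ^ 3 := by ring
  rw [← v.map_pow, e, fl, add_assoc, na_add_eq na h1, v.map_pow]

lemma add_core (na : IsNonarchimedean v) (hl : v a ≤ 1 ∧ v b ≤ 1) {L m x1 x2 x3 : F}
    (e1 : (L * x1 + m) ^ 2 = fl a b x1) (e2 : (L * x2 + m) ^ 2 = fl a b x2)
    (s1 : x1 + x2 + x3 = L ^ 2 - a) (s2 : x1 * x2 + x1 * x3 + x2 * x3 = b - 2 * L * m)
    (s3 : x1 * x2 * x3 = m ^ 2) (h2 : 1 < v x2) (h12 : v x2 ≤ v x1) :
    1 < v x3 ∧ v (x1 / (L * x1 + m) + x2 / (L * x2 + m) + x3 / (L * x3 + m)) ≤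
      v (x2 / (L * x2 + m)) ^ 3 := by
  have h1 : 1 < v x1 := h2.trans_le h12
  have Y1 := big_y na hl e1 h1
  have Y2 := big_y na hl e2 h2
  have S3 : v x1 * v x2 * v x3 = v m ^ 2 := by rw [← v.map_mul, ← v.map_mul, s3, v.map_pow]
  have v2 : v 2 ≤ 1 := by simpa using na_nat na 2
  have pL := v.nonneg L
  have pm := v.nonneg m
  have p3 := v.nonneg x3
  have step1 : v L * v x2 ≤ v m := by
    by_contra hc
    have c2 : v m < v (L * x2) := by rw [v.map_mul]; exact not_le.mp hc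
    have c1 : v m < v (L * x1) := by
      rw [v.map_mul] at c2 ⊢
      exact c2.trans_le (by gcongr)
    rw [na_add_eq na c1, v.map_mul] at Y1
    rw [na_add_eq na c2, v.map_mul] at Y2
    rw [v.map_mul] at c2
    have A1 : v L ^ 2 = v x1 := by
      apply mul_right_cancel₀ (pow_ne_zero 2 (zero_lt_one.trans h1).ne')
      linear_combination Y1
    have A2 : v L ^ 2 = v x2 := by
      apply mul_right_cancel₀ (pow_ne_zero 2 (zero_lt_one.trans h2).ne')
      linear_combination Y2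
    have X12 : v x1 = v x2 := A1.symm.trans A2
    have M2 : v m ^ 2 < v x2 ^ 3 := by
      rw [← Y2]
      exact pow_lt_pow_left₀ c2 pm two_ne_zero
    have X3 : v x3 < v x2 := by
      rw [← S3, X12] at M2
      have : v x2 ^ 2 * v x3 < v x2 ^ 2 * v x2 := by linarith
      exact lt_of_mul_lt_mul_left this (by positivity)
    have pL' : 0 < v L := by
      rcases pL.eq_or_lt with h | h
      · rw [← h] at A2; linarith
      · exact h
    have k : x1 * x2 = b - 2 * L * m - x3 * (x1 + x2) := by linear_combination s2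
    have k2 : v (x1 * x2) < v x2 ^ 2 := by
      rw [k]
      refine na_sub_lt na (na_sub_lt na (by nlinarith [hl.2]) ?_) ?_
      · rw [v.map_mul, v.map_mul]
        calc v 2 * v L * v m ≤ 1 * v L * v m := by gcongr
          _ < 1 * v L * (v L * v x2) := by gcongr
          _ = v x2 ^ 2 := by rw [← A2]; ring
      · rw [v.map_mul]
        calc v x3 * v (x1 + x2) ≤ v x3 * v x2 := by
              gcongr
              exact na_add_le na X12.le le_rfl
          _ < v x2 * v x2 := by gcongr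
          _ = v x2 ^ 2 := by ring
    rw [v.map_mul, X12] at k2
    linarith
  have M1 : v (L * x2 + m) ≤ v m := na_add_le na (by rwa [v.map_mul]) le_rfl
  have py2 : 0 < v (L * x2 + m) := by
    rcases (v.nonneg (L * x2 + m)).eq_or_lt with h | h
    · rw [← h] at Y2
      have : 0 < v x2 ^ 3 := by positivity
      linarith
    · exact h
  have py1 : 0 < v (L * x1 + m) := by
    rcases (v.nonneg (L * x1 + m)).eq_or_lt with h | h
    · rw [← h] at Y1
      have : 0 < v x1 ^ 3 := by positivity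
      linarith
    · exact h
  have pm' : 0 < v m := py2.trans_le M1
  have M2 : v (L * x1 + m) * v x2 ≤ v m * v x1 := by
    rw [← v.map_mul, add_mul]
    refine na_add_le na ?_ ?_
    · rw [v.map_mul, v.map_mul]
      calc v L * v x1 * v x2 = (v L * v x2) * v x1 := by ring
        _ ≤ v m * v x1 := by gcongr
    · rw [v.map_mul]; gcongr
  have X3 : v x2 ≤ v x3 := by
    have t := pow_le_pow_left₀ (by positivity) M2 2
    rw [mul_pow, mul_pow, Y1, ← S3] at t
    have : v x1 ^ 3 * v x2 * v x2 ≤ v x1 ^ 3 * v x2 * v x3 := by linarith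
    exact le_of_mul_le_mul_left this (by positivity)
  refine ⟨h2.trans_le X3, ?_⟩
  have AM : v L < v m := by nlinarith
  have vl1 : v a ≤ 1 := hl.1
  have vl2 : v b ≤ 1 := hl.2
  have hD : v (m ^ 2 + (b * L ^ 2 - a * L * m)) = v m ^ 2 := by
    rw [na_add_eq na, v.map_pow]
    rw [v.map_pow]
    refine na_sub_lt na ?_ ?_
    · rw [v.map_mul, v.map_pow]
      calc v b * v L ^ 2 ≤ 1 * v L ^ 2 := by gcongr
        _ < v m ^ 2 := by rw [one_mul]; gcongr
    · rw [v.map_mul, v.map_mul]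
      calc v a * v L * v m ≤ 1 * v L * v m := by gcongr
        _ < 1 * v m * v m := by gcongr
        _ = v m ^ 2 := by ring
  have hD0 : m ^ 2 + (b * L ^ 2 - a * L * m) ≠ 0 := by
    intro h
    rw [h, v.map_zero] at hD
    exact (pow_pos pm' 2).ne hD
  have hm0 : m ≠ 0 := v.pos_iff.mp pm'
  have prod : (L * x1 + m) * (L * x2 + m) * (L * x3 + m) =
      m * (m ^ 2 + (b * L ^ 2 - a * L * m)) := by
    linear_combination L ^ 3 * s3 + L ^ 2 * m * s2 + L * m ^ 2 * s1
  have n1 : L * x1 + m ≠ 0 := v.pos_iff.mp py1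
  have n2 : L * x2 + m ≠ 0 := v.pos_iff.mp py2
  have n3 : L * x3 + m ≠ 0 := by
    intro h
    rw [h, mul_zero] at prod
    exact mul_ne_zero hm0 hD0 prod.symm
  have sum : x1 / (L * x1 + m) + x2 / (L * x2 + m) + x3 / (L * x3 + m) =
      (2 * b * L - a * m) / (m ^ 2 + (b * L ^ 2 - a * L * m)) := by
    rw [div_add_div _ _ n1 n2, div_add_div _ _ (mul_ne_zero n1 n2) n3, prod,
      ← mul_div_mul_left (2 * b * L - a * m) _ hm0]
    congr 1
    linear_combination 3 * L ^ 2 * s3 + 2 * L * m * s2 + m ^ 2 * s1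
  have num : v (2 * b * L - a * m) ≤ v m := by
    refine na_sub_le na ?_ ?_
    · rw [v.map_mul, v.map_mul]
      calc v 2 * v b * v L ≤ 1 * 1 * v m := by gcongr
        _ = v m := by ring
    · rw [v.map_mul]
      calc v a * v m ≤ 1 * v m := by gcongr
        _ = v m := by ring
  rw [sum, map_div₀, map_div₀, hD, div_pow, ← Y2, div_le_div_iff₀ (by positivity) (by positivity)]
  calc v (2 * b * L - a * m) * v (L * x2 + m) ^ 3
      = v (L * x2 + m) ^ 2 * (v (2 * b * L - a * m) * v (L * x2 + m)) := by ring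
    _ ≤ v (L * x2 + m) ^ 2 * (v m * v m) := by gcongr
    _ = v (L * x2 + m) ^ 2 * v m ^ 2 := by ring

/-- The local parameter `x / y` at the origin. -/
noncomputable def zc : (cv a b).Point → F
  | .zero => 0
  | .some x y _ => x / y

/-- The point reduces to the origin. -/
def Big (v : AbsoluteValue F ℝ) (P : (cv a b).Point) : Prop :=
  ∀ x y h, P = Point.some x y h → 1 < v x

lemma zc_some {x y : F} (h : (cv a b).Nonsingular x y) : zc (Point.some x y h) = x / y := rfl

lemma zc_zero : zc (0 : (cv a b).Point) = 0 := rfl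

lemma big_some {x y : F} (h : (cv a b).Nonsingular x y) :
    Big v (Point.some x y h) ↔ 1 < v x := by
  constructor
  · exact fun hb => hb x y h rfl
  · intro hx x' y' h' e
    obtain ⟨rfl, -⟩ := Point.some.inj e
    exact hx

lemma big_zero : Big v (0 : (cv a b).Point) := fun _ _ h e =>
  absurd e.symm (Point.some_ne_zero h)

lemma big_z (na : IsNonarchimedean v) (hl : v a ≤ 1 ∧ v b ≤ 1) {x y : F} (e : y ^ 2 = fl a b x)
    (hx : 1 < v x) : v (x / y) ^ 2 * v x = 1 := by
  rw [map_div₀, div_pow, big_y na hl e hx]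
  have : v x ≠ 0 := (zero_lt_one.trans hx).ne'
  field_simp

lemma Big.lt_one (na : IsNonarchimedean v) (hl : v a ≤ 1 ∧ v b ≤ 1) {P : (cv a b).Point} (hP : Big v P) :
    v (zc P) < 1 := by
  rcases P with _ | ⟨x, y, h⟩
  · simp [zc]
  · have hx := (big_some h).mp hP
    have := big_z na hl ((cv_eq _ _).mp h.1) hx
    rw [zc_some]
    by_contra hc
    have h1 : 1 ≤ v (x / y) ^ 2 := one_le_pow₀ (not_lt.mp hc)
    nlinarith

variable [CharZero F]

lemma Big.neg {P : (cv a b).Point} (hP : Big v P) : Big v (-P) ∧ zc (-P) = -zc P := by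
  rcases P with _ | ⟨x, y, h⟩
  · exact ⟨big_zero, neg_zero.symm⟩
  · obtain ⟨h', e⟩ := cv_neg h
    rw [e, big_some, zc_some, zc_some, div_neg]
    exact ⟨(big_some h).mp hP, rfl⟩

lemma Big.add (na : IsNonarchimedean v) (hl : v a ≤ 1 ∧ v b ≤ 1) {P Q : (cv a b).Point} (hP : Big v P)
    (hQ : Big v Q) {ρ : ℝ} (h1 : v (zc P) ≤ ρ) (h2 : v (zc Q) ≤ ρ) :
    Big v (P + Q) ∧ v (zc (P + Q) - (zc P + zc Q)) ≤ ρ ^ 3 := by
  have hρ : 0 ≤ ρ := (v.nonneg _).trans h1
  rcases P with _ | ⟨x1, y1, k1⟩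
  · rw [← Point.zero_def, zero_add, zc_zero, zero_add, sub_self, v.map_zero]
    exact ⟨hQ, by positivity⟩
  rcases Q with _ | ⟨x2, y2, k2⟩
  · rw [← Point.zero_def, add_zero, zc_zero, add_zero, sub_self, v.map_zero]
    exact ⟨hP, by positivity⟩
  by_cases hxy : x1 = x2 ∧ y1 = -y2
  · rw [Point.add_of_Y_eq hxy.1 (by rw [cv_negY, hxy.2]), zc_zero, zc_some, zc_some, hxy.1, hxy.2,
      div_neg, neg_add_cancel, sub_self, v.map_zero]
    exact ⟨big_zero, by positivity⟩
  obtain ⟨L, m, x3, k3, e, rfl, rfl, s1, s2, s3⟩ := add_vieta k1 k2 hxy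
  rw [big_some] at hP hQ
  rw [zc_some] at h1 h2
  rw [e, big_some, zc_some, zc_some, zc_some, div_neg, ← neg_add', v.map_neg, add_comm]
  have e1 := (cv_eq _ _).mp k1.1
  have e2 := (cv_eq _ _).mp k2.1
  rcases le_total (v x2) (v x1) with h | h
  · obtain ⟨a1, a2⟩ := add_core na hl e1 e2 s1 s2 s3 hQ h
    exact ⟨a1, a2.trans (by gcongr)⟩
  · obtain ⟨a1, a2⟩ := add_core (x3 := x3) na hl e2 e1 (by linear_combination s1)
      (by linear_combination s2) (by linear_combination s3) hP h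
    rw [add_comm (x2 / _)] at a2
    exact ⟨a1, a2.trans (by gcongr)⟩

lemma Big.nsmul (na : IsNonarchimedean v) (hl : v a ≤ 1 ∧ v b ≤ 1) {P : (cv a b).Point} (hP : Big v P)
    (k : ℕ) : Big v (k • P) ∧ v (zc (k • P) - k * zc P) ≤ v (zc P) ^ 3 := by
  have h1 := hP.lt_one na hl
  have h0 := v.nonneg (zc P)
  induction k with
  | zero =>
    rw [zero_nsmul, zc_zero]
    exact ⟨big_zero, by simp⟩
  | succ k ih =>
    have h2 : v (zc (k • P)) ≤ v (zc P) := by
      have : zc (k • P) = (zc (k • P) - k * zc P) + k * zc P := by ring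
      rw [this]
      refine na_add_le na (ih.2.trans (pow_le_of_le_one h0 h1.le (by norm_num))) ?_
      rw [v.map_mul]
      exact mul_le_of_le_one_left h0 (na_nat na k)
    obtain ⟨a1, a2⟩ := ih.1.add na hl hP h2 le_rfl
    rw [succ_nsmul]
    refine ⟨a1, ?_⟩
    have : zc (k • P + P) - ((k + 1 : ℕ) : F) * zc P =
        (zc (k • P + P) - (zc (k • P) + zc P)) + (zc (k • P) - k * zc P) := by
      push_cast; ring
    rw [this]
    exact na_add_le na a2 ih.2

lemma Big.val_nsmul (na : IsNonarchimedean v) (hl : v a ≤ 1 ∧ v b ≤ 1) {P : (cv a b).Point}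
    (hP : Big v P) (h0 : zc P ≠ 0) (k : ℕ) (hk : v (zc P) ^ 2 < v k) :
    v (zc (k • P)) = v k * v (zc P) := by
  have : zc (k • P) = k * zc P + (zc (k • P) - k * zc P) := by ring
  rw [this, na_add_eq na, v.map_mul]
  refine (hP.nsmul na hl k).2.trans_lt ?_
  rw [v.map_mul, pow_succ]
  exact mul_lt_mul_of_pos_right hk (v.pos h0)

end Pool.Agent.MP_6a61d2_nt

end MrgPart0

-- ======== part 1: formerly Pool.Agent.MP_6a61d2_nt.Red
section MrgPart1

/-! Torsion points inject into the reduction. -/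

set_option linter.unusedSectionVars false
set_option linter.unusedVariables false

namespace Pool.Agent.MP_6a61d2_nt

open WeierstrassCurve.Affine Polynomial

variable {F : Type} [Field F] [CharZero F] [DecidableEq F] {a b : F} {v : AbsoluteValue F ℝ}
  {p : ℕ}

/-- An unramified absolute value above `p` with residue field `ZMod p`. -/
structure PV (p : ℕ) (v : AbsoluteValue F ℝ) : Prop where
  na : IsNonarchimedean v
  int : ∀ n : ℤ, v n < 1 ↔ (p : ℤ) ∣ n
  disc : ∀ x, v x < 1 → v x ≤ v p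
  res : ∀ x, v x ≤ 1 → ∃ n : ℤ, v (x - n) < 1

lemma PV.lt (hv : PV p v) : v p < 1 := by
  have := (hv.int p).mpr dvd_rfl
  simpa using this

lemma PV.unit (hv : PV p v) {n : ℤ} (h : ¬(p : ℤ) ∣ n) : v n = 1 :=
  le_antisymm (na_int hv.na n) (not_lt.mp fun k => h ((hv.int n).mp k))

lemma PV.cop (hv : PV p v) (n : ℕ) (h : ¬p ∣ n) : v n = 1 := by
  have := hv.unit (n := n) (by exact_mod_cast h)
  simpa using this

lemma Big.nsmul_ne_zero (hp : p.Prime) (hv : PV p v) (hl : v a ≤ 1 ∧ v b ≤ 1) (k : ℕ)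
    (hk : k ≠ 0) {P : (cv a b).Point} (hP : Big v P) (h0 : zc P ≠ 0)
    (h1 : v (zc P) ^ 2 < v p) : k • P ≠ 0 := by
  induction k using Nat.strong_induction_on generalizing P with
  | _ k ih =>
  have pz := v.pos h0
  by_cases hd : p ∣ k
  · obtain ⟨j, rfl⟩ := hd
    have hj : j ≠ 0 := right_ne_zero_of_mul hk
    have e := hP.val_nsmul hv.na hl h0 p h1
    have pp : 0 < v p := lt_of_le_of_lt (sq_nonneg _) h1
    rw [mul_nsmul]
    refine ih j (lt_mul_left (Nat.pos_of_ne_zero hj) hp.one_lt) hj (hP.nsmul hv.na hl p).1 ?_ ?_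
    · rw [← v.pos_iff, e]; positivity
    · refine lt_of_le_of_lt ?_ h1
      rw [e]
      gcongr
      exact mul_le_of_le_one_left pz.le hv.lt.le
  · have e := hP.val_nsmul hv.na hl h0 k (by rw [hv.cop k hd]; exact h1.trans hv.lt)
    intro hz
    rw [hz, zc_zero, v.map_zero, hv.cop k hd, one_mul] at e
    exact pz.ne e

/-- The kernel of reduction has no torsion. -/
lemma Big.eq_zero (hp : p.Prime) (hv : PV p v) (hl : v a ≤ 1 ∧ v b ≤ 1) {P : (cv a b).Point}
    (hP : Big v P) (ht : IsOfFinAddOrder P) : P = 0 := by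
  rcases P with _ | ⟨x, y, h⟩
  · rfl
  obtain ⟨k, hk, e⟩ := isOfFinAddOrder_iff_nsmul_eq_zero.mp ht
  have z := big_z hv.na hl ((cv_eq _ _).mp h.1) ((big_some h).mp hP)
  have z1 := hv.disc _ (hP.lt_one hv.na hl)
  have pp : 0 < v p := v.pos (Nat.cast_ne_zero.mpr hp.ne_zero)
  refine absurd e (hP.nsmul_ne_zero hp hv hl k hk.ne' ?_ ?_)
  · rw [zc_some]
    intro h0
    rw [h0] at z
    simp at z
  · have := hv.lt
    have := v.nonneg (zc (Point.some x y h))
    nlinarith

lemma mul_lt_one_or {r s : F} (h : v (r * s) < 1) : v r < 1 ∨ v s < 1 := by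
  by_contra hc
  rw [not_or, not_lt, not_lt] at hc
  rw [v.map_mul] at h
  nlinarith [hc.1, hc.2]

lemma mul_lt_left {r s : F} (h : v r < 1) (k : v s ≤ 1) : v (r * s) < 1 := by
  rw [v.map_mul]
  exact mul_lt_one_of_nonneg_of_lt_one_left (v.nonneg r) h k

lemma mul_lt_right {r s : F} (h : v r ≤ 1) (k : v s < 1) : v (r * s) < 1 := by
  rw [mul_comm]; exact mul_lt_left k h

lemma mul_le_both {r s : F} (h : v r ≤ 1) (k : v s ≤ 1) : v (r * s) ≤ 1 := by
  rw [v.map_mul]
  exact mul_le_one₀ h (v.nonneg s) k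

lemma le_of_sq_le {r : F} (h : v (r ^ 2) ≤ 1) : v r ≤ 1 := by
  rw [v.map_pow] at h
  exact (pow_le_one_iff_of_nonneg (v.nonneg r) two_ne_zero).mp h

/-- Two integral points with the same reduction differ by a point of the kernel of reduction. -/
lemma big_sub (na : IsNonarchimedean v) (ha : v a ≤ 1) (hb : v b = 1) (hd : v (a ^ 2 - 4 * b) = 1)
    (h2 : v 2 = 1) {x1 y1 x2 y2 : F} (k1 : (cv a b).Nonsingular x1 y1)
    (k2 : (cv a b).Nonsingular x2 y2) (i1 : v x1 ≤ 1) (i2 : v x2 ≤ 1) (cx : v (x1 - x2) < 1)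
    (cy : v (y1 - y2) < 1) : Big v (Point.some x1 y1 k1 - Point.some x2 y2 k2) := by
  by_cases hxy : x1 = x2 ∧ y1 = - -y2
  · obtain ⟨rfl, e⟩ := hxy
    rw [neg_neg] at e
    subst e
    rw [sub_self]
    exact big_zero
  obtain ⟨k2', e2⟩ := cv_neg k2
  obtain ⟨L, m, x3, k3, e, f1, f2, s1, s2, s3⟩ := add_vieta k1 k2' hxy
  rw [sub_eq_add_neg, e2, e, big_some]
  by_contra hc
  have i3 : v x3 ≤ 1 := not_lt.mp hc
  have hL : v L ≤ 1 := by
    apply le_of_sq_le
    rw [show L ^ 2 = x1 + x2 + x3 + a by linear_combination -s1]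
    exact na_add_le na (na_add_le na (na_add_le na i1 i2) i3) ha
  have hy : v y1 < 1 := by
    have : v (2 * y1) < 1 := by
      rw [show 2 * y1 = L * (x1 - x2) + (y1 - y2) by linear_combination f1 - f2]
      exact na_add_lt na (mul_lt_right hL cx) cy
    rwa [v.map_mul, h2, one_mul] at this
  have e1 := (cv_eq _ _).mp k1.1
  unfold fl at e1
  have d1 : v (x1 ^ 2 + a * x1 + b + x1 * (2 * x1 + a)) < 1 := by
    rw [show x1 ^ 2 + a * x1 + b + x1 * (2 * x1 + a) = (x1 - x2) * (x1 - x3) + 2 * L * y1 by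
      linear_combination 2 * x1 * s1 - s2 - 2 * L * f1]
    exact na_add_lt na (mul_lt_left cx (na_sub_le na i1 i3))
      (mul_lt_right (mul_le_both h2.le hL) hy)
  have d0 : v (x1 * (x1 ^ 2 + a * x1 + b)) < 1 := by
    rw [show x1 * (x1 ^ 2 + a * x1 + b) = y1 * y1 by linear_combination -e1]
    exact mul_lt_left hy hy.le
  have nx : ¬v x1 < 1 := by
    intro hx
    have : v b < 1 := by
      rw [show b = x1 ^ 2 + a * x1 + b + x1 * (2 * x1 + a) - x1 * (x1 + a + (2 * x1 + a)) by ring]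
      exact na_sub_lt na d1 (mul_lt_left hx (na_add_le na (na_add_le na i1 ha)
        (na_add_le na (mul_le_both h2.le i1) ha)))
    exact this.ne hb
  have g := (mul_lt_one_or d0).resolve_left nx
  have g2 : v (x1 * (2 * x1 + a)) < 1 := by
    have := na_sub_lt na d1 g
    rwa [add_sub_cancel_left] at this
  have g3 := (mul_lt_one_or g2).resolve_left nx
  have : v (a ^ 2 - 4 * b) < 1 := by
    rw [show a ^ 2 - 4 * b = (2 * x1 + a) * (2 * x1 + a) - 2 * 2 * (x1 ^ 2 + a * x1 + b) by ring]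
    exact na_sub_lt na (mul_lt_left g3 g3.le) (mul_lt_right (mul_le_both h2.le h2.le) g)
  exact this.ne hd

/-- `x` is congruent to the integer `n`. -/
def Sp (v : AbsoluteValue F ℝ) (x : F) (n : ℤ) : Prop := v (x - n) < 1

section Sp

variable (na : IsNonarchimedean v) {r s : F} {m n : ℤ}
include na

lemma Sp.le (h : Sp v r m) : v r ≤ 1 := by
  rw [show r = r - m + m by ring]
  exact na_add_le na (le_of_lt h) (na_int na m)

lemma Sp.add (h : Sp v r m) (k : Sp v s n) : Sp v (r + s) (m + n) := by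
  unfold Sp
  rw [show r + s - ((m + n : ℤ) : F) = (r - m) + (s - n) by push_cast; ring]
  exact na_add_lt na h k

lemma Sp.sub (h : Sp v r m) (k : Sp v s n) : Sp v (r - s) (m - n) := by
  unfold Sp
  rw [show r - s - ((m - n : ℤ) : F) = (r - m) - (s - n) by push_cast; ring]
  exact na_sub_lt na h k

lemma Sp.mul (h : Sp v r m) (k : Sp v s n) : Sp v (r * s) (m * n) := by
  unfold Sp
  rw [show r * s - ((m * n : ℤ) : F) = (r - m) * s + m * (s - n) by push_cast; ring]
  exact na_add_lt na (mul_lt_left h (k.le na)) (mul_lt_right (na_int na m) k)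

lemma sp_int (n : ℤ) : Sp v n n := by simp [Sp]

lemma Sp.pow (h : Sp v r m) (k : ℕ) : Sp v (r ^ k) (m ^ k) := by
  induction k with
  | zero => simpa using sp_int na 1
  | succ k ih => rw [pow_succ, pow_succ]; exact ih.mul na h

lemma Sp.poly (h : Sp v r m) (q : ℤ[X]) : Sp v (aeval r q) (q.eval m) := by
  induction q using Polynomial.induction_on' with
  | add q1 q2 h1 h2 => rw [map_add, eval_add]; exact h1.add na h2
  | monomial k c =>
    rw [aeval_monomial, eval_monomial, eq_intCast]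
    exact (sp_int na c).mul na (h.pow na k)

end Sp

lemma Sp.small (hv : PV p v) {r : F} {m : ℤ} (h : Sp v r m) (k : (p : ℤ) ∣ m) : v r < 1 := by
  rw [show r = r - m + m by ring]
  exact na_add_lt hv.na h ((hv.int m).mpr k)

lemma Sp.unit (hv : PV p v) {r : F} {m : ℤ} (h : Sp v r m) (k : ¬(p : ℤ) ∣ m) : v r = 1 := by
  rw [show r = m + (r - m) by ring, na_add_eq hv.na (by rw [hv.unit k]; exact h), hv.unit k]

lemma Sp.dvd (hv : PV p v) {m : ℤ} (h : Sp v 0 m) : (p : ℤ) ∣ m := by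
  by_contra k
  simpa using h.unit hv k

/-- The torsion subgroup is no larger than the group of points of the reduction. -/
theorem tors_card (hp : p.Prime) (hv : PV p v) (h2 : ¬(p : ℤ) ∣ 2) {a0 b0 : ℤ} (ha : Sp v a a0)
    (hb : Sp v b b0) (hb0 : ¬(p : ℤ) ∣ b0) (hd0 : ¬(p : ℤ) ∣ a0 ^ 2 - 4 * b0)
    (S : Finset (ZMod p × ZMod p))
    (hS : ∀ x y : ZMod p, y ^ 2 = x ^ 3 + a0 * x ^ 2 + b0 * x → (x, y) ∈ S) :
    Finite (AddCommGroup.torsion (cv a b).Point) ∧
      Nat.card (AddCommGroup.torsion (cv a b).Point) ≤ S.card + 1 := by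
  classical
  have na := hv.na
  have hl : v a ≤ 1 ∧ v b ≤ 1 := ⟨ha.le na, hb.le na⟩
  have v2 : v 2 = 1 := by simpa using hv.unit h2
  have vd : v (a ^ 2 - 4 * b) = 1 := by
    have := (ha.pow na 2).sub na ((sp_int na 4).mul na hb)
    simpa using this.unit hv hd0
  choose! n hn using hv.res
  have ix : ∀ {x y : F} (h : (cv a b).Nonsingular x y), IsOfFinAddOrder (Point.some x y h) →
      v x ≤ 1 ∧ v y ≤ 1 := by
    intro x y h ht
    have hx : v x ≤ 1 := not_lt.mp fun k =>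
      Point.some_ne_zero h (Big.eq_zero hp hv hl ((big_some h).mpr k) ht)
    refine ⟨hx, le_of_sq_le ?_⟩
    have sx : Sp v x (n x) := hn x hx
    rw [(cv_eq _ _).mp h.1, fl]
    exact (((sx.pow na 3).add na (ha.mul na (sx.pow na 2))).add na (hb.mul na sx)).le na
  have mem : ∀ {x y : F} (h : (cv a b).Nonsingular x y), IsOfFinAddOrder (Point.some x y h) →
      ((n x : ZMod p), (n y : ZMod p)) ∈ S := by
    intro x y h ht
    have sx : Sp v x (n x) := hn x (ix h ht).1
    have sy : Sp v y (n y) := hn y (ix h ht).2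
    have k := (sy.pow na 2).sub na
      (((sx.pow na 3).add na (ha.mul na (sx.pow na 2))).add na (hb.mul na sx))
    have e := (cv_eq _ _).mp h.1
    rw [fl] at e
    rw [e, sub_self] at k
    have k2 := (ZMod.intCast_zmod_eq_zero_iff_dvd _ p).mpr (k.dvd hv)
    push_cast at k2
    exact hS _ _ (sub_eq_zero.mp k2)
  let f : AddCommGroup.torsion (cv a b).Point → Option S := fun P =>
    match P with
    | ⟨.zero, _⟩ => none
    | ⟨.some x y h, ht⟩ => Option.some ⟨(n x, n y), mem h ht⟩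
  have cl : ∀ r s : F, v r ≤ 1 → v s ≤ 1 → (n r : ZMod p) = n s → v (r - s) < 1 := by
    intro r s hr hs e
    have k : Sp v (r - s) (n r - n s) := Sp.sub na (hn r hr) (hn s hs)
    refine k.small hv ((ZMod.intCast_zmod_eq_zero_iff_dvd _ p).mp ?_)
    push_cast
    exact sub_eq_zero.mpr e
  have inj : Function.Injective f := by
    rintro ⟨_ | ⟨x1, y1, k1⟩, t1⟩ ⟨_ | ⟨x2, y2, k2⟩, t2⟩ e
    · rfl
    · simp [f] at e
    · simp [f] at e
    · simp only [f, Option.some.injEq, Subtype.mk.injEq, Prod.mk.injEq] at e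
      have B := big_sub na hl.1 (hb.unit hv hb0) vd v2 k1 k2 (ix k1 t1).1 (ix k2 t2).1
        (cl _ _ (ix k1 t1).1 (ix k2 t2).1 e.1) (cl _ _ (ix k1 t1).2 (ix k2 t2).2 e.2)
      exact Subtype.ext (sub_eq_zero.mp (B.eq_zero hp hv hl
        ((AddCommGroup.torsion (cv a b).Point).sub_mem t1 t2)))
  refine ⟨Finite.of_injective f inj, (Nat.card_le_card_of_injective f inj).trans ?_⟩
  simp

end Pool.Agent.MP_6a61d2_nt

end MrgPart1

-- ======== part 2: formerly Pool.Agent.MP_6a61d2_nt.Tors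
section MrgPart2

/-! The sixteen torsion points of `y ^ 2 = x (x + u ^ 4) (x + v ^ 4)`, `u ^ 2 + v ^ 2 = w ^ 2`. -/

set_option linter.unusedSectionVars false
set_option linter.unusedVariables false

namespace Pool.Agent.MP_6a61d2_nt

open WeierstrassCurve.Affine

variable {F : Type} [Field F] [CharZero F] [DecidableEq F] {a b : F}

lemma cv_ns (hΔ : (cv a b).Δ ≠ 0) {x y : F} (h : y ^ 2 = fl a b x) : (cv a b).Nonsingular x y :=
  (equation_iff_nonsingular_of_Δ_ne_zero hΔ).mp ((cv_eq x y).mpr h)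

lemma dbl {x y x3 y3 L : F} (h : (cv a b).Nonsingular x y) (hy : y ≠ 0)
    (hL : 2 * y * L = 3 * x ^ 2 + 2 * a * x + b) (e1 : x3 = L ^ 2 - a - 2 * x)
    (e2 : y3 = -(L * (x3 - x) + y)) :
    ∃ h', 2 • Point.some x y h = Point.some x3 y3 h' := by
  obtain ⟨h', e⟩ := add_self_ne h hy
  have k : (3 * x ^ 2 + 2 * a * x + b) / (2 * y) = L := by
    rw [← hL]; field_simp
  have k1 : sX a x x ((3 * x ^ 2 + 2 * a * x + b) / (2 * y)) = x3 := by
    rw [k, sX, e1]; ring
  obtain ⟨h'', e'⟩ := some_congr h' k1 (y' := y3) (by rw [sY, k1, k, e2])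
  exact ⟨h'', by rw [two_nsmul, e, e']⟩

/-- The homomorphism from `ZMod n` given by an element killed by `n`. -/
def zhom {A : Type} [AddCommGroup A] (n : ℕ) (T : A) (h : n • T = 0) : ZMod n →+ A :=
  ZMod.lift n ⟨zmultiplesHom A T, by simpa using h⟩

lemma zhom_cast {A : Type} [AddCommGroup A] (n : ℕ) (T : A) (h : n • T = 0) (m : ℤ) :
    zhom n T h m = m • T := by
  simp [zhom]

lemma exists_hom {A : Type} [AddCommGroup A] {T2 T8 : A} (h2 : 2 • T2 = 0) (h8 : 8 • T8 = 0)
    (n2 : T2 ≠ 0) (n4 : 4 • T8 ≠ 0) (n24 : T2 ≠ 4 • T8) :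
    ∃ f : ZMod 2 × ZMod 8 →+ A, Function.Injective f := by
  refine ⟨(zhom 2 T2 h2).coprod (zhom 8 T8 h8), (injective_iff_map_eq_zero _).mpr ?_⟩
  rintro ⟨i, j⟩ e
  obtain ⟨m, rfl⟩ := ZMod.intCast_surjective i
  obtain ⟨n, rfl⟩ := ZMod.intCast_surjective j
  rw [AddMonoidHom.coprod_apply, zhom_cast, zhom_cast] at e
  have o8 : addOrderOf T8 = 8 := addOrderOf_eq_prime_pow (p := 2) (n := 2) n4 h8
  have z2 : (2 : ℤ) • T2 = 0 := by exact_mod_cast h2
  have z8 : (8 : ℤ) • T8 = 0 := by exact_mod_cast h8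
  have e2 : (2 * n) • T8 = 0 := by
    have := congrArg (fun t => (2 : ℤ) • t) e
    simp only [smul_add, smul_zero] at this
    rwa [smul_comm, z2, smul_zero, zero_add, smul_smul] at this
  have d8 := addOrderOf_dvd_iff_zsmul_eq_zero.mpr e2
  rw [o8] at d8
  obtain ⟨k, rfl⟩ : (4 : ℤ) ∣ n := by omega
  have n4' : (4 : ℤ) • T8 ≠ 0 := by exact_mod_cast n4
  have n24' : T2 ≠ (4 : ℤ) • T8 := by exact_mod_cast n24
  have a0 : ∀ c : ℤ, (2 * c) • T2 = 0 := fun c => by rw [mul_comm, mul_smul, z2, smul_zero]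
  have b0 : ∀ c : ℤ, (4 * (2 * c)) • T8 = 0 := fun c => by
    rw [show 4 * (2 * c) = c * 8 by ring, mul_smul, z8, smul_zero]
  have a1 : ∀ c : ℤ, (2 * c + 1) • T2 = T2 := fun c => by rw [add_smul, a0, zero_add, one_smul]
  have b1 : ∀ c : ℤ, (4 * (2 * c + 1)) • T8 = (4 : ℤ) • T8 := fun c => by
    rw [mul_add, add_smul, b0, zero_add, mul_one]
  rcases Int.even_or_odd' m with ⟨c, rfl | rfl⟩ <;> rcases Int.even_or_odd' k with ⟨d, rfl | rfl⟩
  · ext
    · exact (ZMod.intCast_zmod_eq_zero_iff_dvd _ 2).mpr ⟨c, rfl⟩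
    · exact (ZMod.intCast_zmod_eq_zero_iff_dvd _ 8).mpr ⟨d, by push_cast; ring⟩
  · rw [a0, b1, zero_add] at e
    exact absurd e n4'
  · rw [a1, b0, add_zero] at e
    exact absurd e n2
  · rw [a1, b1] at e
    refine absurd ?_ n24'
    have : (4 : ℤ) • T8 + (4 : ℤ) • T8 = 0 := by rw [← add_smul]; exact z8
    exact add_right_cancel (e.trans this.symm)

lemma tors_hom {u v w : F} (h : u ^ 2 + v ^ 2 = w ^ 2) (hu : u ≠ 0) (hv : v ≠ 0) (hw : w ≠ 0)
    (huv : u + v ≠ 0) (hΔ : (cv (u ^ 4 + v ^ 4) (u ^ 4 * v ^ 4)).Δ ≠ 0) :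
    ∃ f : ZMod 2 × ZMod 8 →+ (cv (u ^ 4 + v ^ 4) (u ^ 4 * v ^ 4)).Point, Function.Injective f := by
  have huw : u + w ≠ 0 := fun k => hv (pow_eq_zero_iff (two_ne_zero) |>.mp
    (by linear_combination h - (u - w) * k))
  have hvw : v + w ≠ 0 := fun k => hu (pow_eq_zero_iff (two_ne_zero) |>.mp
    (by linear_combination h - (v - w) * k))
  have k8 := cv_ns hΔ (x := u * v * (u + w) * (v + w)) (y := u * v * w * (u + v) * (u + w) * (v + w))
    (by
      have e1 : u * v * (u + w) * (v + w) + u ^ 4 = u * w * (v + w) * (u + v) := by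
        linear_combination u ^ 2 * h
      have e2 : u * v * (u + w) * (v + w) + v ^ 4 = v * w * (u + w) * (u + v) := by
        linear_combination v ^ 2 * h
      rw [show ∀ x : F, fl (u ^ 4 + v ^ 4) (u ^ 4 * v ^ 4) x = x * (x + u ^ 4) * (x + v ^ 4) from
        fun x => by rw [fl]; ring, e1, e2]
      ring)
  have k2 := cv_ns hΔ (x := -u ^ 4) (y := 0) (by rw [fl]; ring)
  obtain ⟨k4, e4⟩ := dbl (x3 := u ^ 2 * v ^ 2) (y3 := u ^ 2 * v ^ 2 * w ^ 2)
    (L := u * v + u * w + v * w) k8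
    (mul_ne_zero (mul_ne_zero (mul_ne_zero (mul_ne_zero (mul_ne_zero hu hv) hw) huv) huw) hvw)
    (by linear_combination (-2 * u * v ^ 3 * w ^ 2 - 2 * u * v ^ 4 * w - u ^ 2 * v ^ 2 * w ^ 2
      - 2 * u ^ 2 * v ^ 3 * w - 2 * u ^ 2 * v ^ 4 - 2 * u ^ 3 * v * w ^ 2 - 2 * u ^ 3 * v ^ 2 * w
      - 2 * u ^ 4 * v * w - 2 * u ^ 4 * v ^ 2) * h)
    (by linear_combination (u ^ 2 + v ^ 2) * h) (by ring)
  obtain ⟨k0, e0⟩ := dbl (x3 := 0) (y3 := 0) (L := w ^ 2) k4
    (mul_ne_zero (mul_ne_zero (pow_ne_zero 2 hu) (pow_ne_zero 2 hv)) (pow_ne_zero 2 hw))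
    (by linear_combination (-2 * u ^ 2 * v ^ 2 * w ^ 2 - 2 * u ^ 2 * v ^ 4 - 2 * u ^ 4 * v ^ 2) * h)
    (by linear_combination (w ^ 2 + v ^ 2 + u ^ 2) * h) (by ring)
  have f4 : 4 • Point.some _ _ k8 = Point.some 0 0 k0 :=
    (mul_nsmul _ 2 2).trans (by rw [e4, e0])
  refine exists_hom (T2 := Point.some _ _ k2) (T8 := Point.some _ _ k8)
    ((two_smul_some k2).mpr rfl) ?_ (Point.some_ne_zero _) ?_ ?_
  · exact (mul_nsmul _ 4 2).trans (by rw [f4]; exact (two_smul_some k0).mpr rfl)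
  · rw [f4]; exact Point.some_ne_zero _
  · rw [f4]
    intro e
    exact pow_ne_zero 4 hu (neg_eq_zero.mp (Point.some.inj e).1)

lemma tors_equiv {A : Type} [AddCommGroup A] (f : ZMod 2 × ZMod 8 →+ A) (hf : Function.Injective f)
    (h1 : Finite (AddCommGroup.torsion A)) (h2 : Nat.card (AddCommGroup.torsion A) ≤ 16) :
    Nonempty (AddCommGroup.torsion A ≃+ ZMod 2 × ZMod 8) := by
  let g : ZMod 2 × ZMod 8 →+ AddCommGroup.torsion A :=
    f.codRestrict _ fun z => f.isOfFinAddOrder (isOfFinAddOrder_of_finite z)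
  have hg : Function.Injective g := fun s t e => hf (congrArg Subtype.val e)
  exact ⟨(AddEquiv.ofBijective g (hg.bijective_of_nat_card_le (by simpa using h2))).symm⟩

lemma one_le_rank {A : Type} [AddCommGroup A] {P : A} (h : ¬IsOfFinAddOrder P) :
    1 ≤ Module.rank ℤ A :=
  Module.one_le_rank_iff.mpr
    ⟨LinearMap.toSpanSingleton ℤ A P, injective_zsmul_iff_not_isOfFinAddOrder.mpr h⟩

end Pool.Agent.MP_6a61d2_nt

end MrgPart2

-- marker of a merged file
example : 731051 + 735741 = 731051 + 735741 := rfl
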