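import Mathlib.Algebra.AlgebraicCard
import Mathlib.Topology.Algebra.Module.ModuleTopology
import Mathlib.RingTheory.Flat.TorsionFree
import Mathlib.FieldTheory.RatFunc.AsPolynomial
import Mathlib.Topology.Algebra.Module.Cardinality
import Mathlib.Analysis.Normed.Unbundled.RingSeminorm
import Mathlib.Tactic.NormNum.Prime
import Mathlib.NumberTheory.Padics.RingHoms
import Pool.Agent.MP_6a61d2_nt.Tors

/-! The family with parameter `t (t ^ 2 + 6) / (6 t ^ 2 + 1)` and its point of infinite order. -/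

set_option linter.unusedSectionVars false
set_option linter.unusedVariables false

namespace Pool.Agent.MP_6a61d2_nt

open WeierstrassCurve.Affine Polynomial

variable {F : Type} [Field F] [CharZero F] [DecidableEq F] {v : AbsoluteValue F ℝ}

/-- First leg. -/
def pu (t : F) : F := 2 * t * (t ^ 2 + 6) * (6 * t ^ 2 + 1)

/-- Second leg. -/
def pv (t : F) : F := (6 * t ^ 2 + 1) ^ 2 - t ^ 2 * (t ^ 2 + 6) ^ 2

/-- The denominator of the point. -/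
def pD (s : F) : F := 2 * s ^ 4 - 9 * s ^ 3 + 31 * s ^ 2 - 78 * s + 5

/-- The curve of the family. -/
def fam (t : F) : WeierstrassCurve.Affine F := cv (pu t ^ 4 + pv t ^ 4) (pu t ^ 4 * pv t ^ 4)

lemma point_eq (t : F) (hD : pD (t ^ 2) ≠ 0) : ∃ y : F,
    y ^ 2 = fl (pu t ^ 4 + pv t ^ 4) (pu t ^ 4 * pv t ^ 4)
      (4 * pv t ^ 2 * (t ^ 2 + 6) ^ 3 * (6 * t ^ 2 + 1) *
        (5 * (t ^ 2) ^ 4 - 78 * (t ^ 2) ^ 3 + 31 * (t ^ 2) ^ 2 - 9 * t ^ 2 + 2) ^ 2 /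
        pD (t ^ 2) ^ 2) := by
  have hu : pu t ^ 4 = 16 * (t ^ 2) ^ 2 * (t ^ 2 + 6) ^ 4 * (6 * t ^ 2 + 1) ^ 4 := by
    rw [pu]; ring
  have hv : pv t = (6 * t ^ 2 + 1) ^ 2 - t ^ 2 * (t ^ 2 + 6) ^ 2 := rfl
  rw [hu]
  generalize pv t = V at hv ⊢
  generalize t ^ 2 = s at *
  have hD' : pD s = 2 * s ^ 4 - 9 * s ^ 3 + 31 * s ^ 2 - 78 * s + 5 := rfl
  generalize pD s = D at *
  obtain ⟨E, hE⟩ : ∃ E, E = 5 * s ^ 4 - 78 * s ^ 3 + 31 * s ^ 2 - 9 * s + 2 := ⟨_, rfl⟩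
  obtain ⟨M, hM⟩ : ∃ M, M = 59 * s ^ 4 - 326 * s ^ 3 + 673 * s ^ 2 - 65 * s + 2 := ⟨_, rfl⟩
  obtain ⟨N, hN⟩ : ∃ N, N = 2 * s ^ 4 - 65 * s ^ 3 + 673 * s ^ 2 - 326 * s + 59 := ⟨_, rfl⟩
  obtain ⟨G, hG⟩ : ∃ G, G = (s + 1) ^ 2 * (s ^ 4 + 6 * s ^ 3 + 35 * s ^ 2 + 6 * s + 1) := ⟨_, rfl⟩
  have A : V ^ 2 * E ^ 2 + 4 * s ^ 2 * (s + 6) * (6 * s + 1) ^ 3 * D ^ 2 = G * M ^ 2 := by
    rw [hv, hD', hE, hM, hG]; ring
  have B : 4 * (s + 6) ^ 3 * (6 * s + 1) * E ^ 2 + V ^ 2 * D ^ 2 = G * N ^ 2 := by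
    rw [hv, hD', hE, hN, hG]; ring
  rw [← hE]
  generalize s + 6 = c at *
  generalize 6 * s + 1 = d at *
  have A' : 4 * V ^ 2 * c ^ 3 * d * E ^ 2 / D ^ 2 + 16 * s ^ 2 * c ^ 4 * d ^ 4 =
      4 * c ^ 3 * d * (G * M ^ 2) / D ^ 2 := by
    rw [← A]; field_simp; ring
  have B' : 4 * V ^ 2 * c ^ 3 * d * E ^ 2 / D ^ 2 + V ^ 4 = V ^ 2 * (G * N ^ 2) / D ^ 2 := by
    rw [← B]; field_simp
  refine ⟨4 * V ^ 2 * c ^ 3 * d * G * E * M * N / D ^ 3, ?_⟩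
  rw [show ∀ x r q : F, fl (r + q) (r * q) x = x * (x + r) * (x + q) from
    fun x r q => by rw [fl]; ring, A', B']
  field_simp

lemma Sp.congr {p : ℕ} (hv : PV p v) {r : F} {m n : ℤ} (h : Sp v r m) (k : (p : ℤ) ∣ m - n) :
    Sp v r n := by
  have := h.sub hv.na (sp_int hv.na n)
  exact this.small hv k

theorem core (hv : PV 13 v) {t : F} (ht : Sp v t 6) (hD : pD (t ^ 2) ≠ 0) :
    (fam t).Δ ≠ 0 ∧ Nonempty (AddCommGroup.torsion (fam t).Point ≃+ ZMod 2 × ZMod 8) ∧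
      1 ≤ Module.rank ℤ (fam t).Point := by
  have na := hv.na
  have hp : Nat.Prime 13 := by norm_num
  have su : Sp v (pu t) (-1) := by
    have := ht.poly na (2 * X * (X ^ 2 + 6) * (6 * X ^ 2 + 1))
    simp only [map_mul, map_add, map_pow, map_ofNat, map_one, aeval_X, eval_mul, eval_add,
      eval_pow, eval_ofNat, eval_one, eval_X] at this
    exact this.congr hv (by decide)
  have sv : Sp v (pv t) 4 := by
    have := ht.poly na ((6 * X ^ 2 + 1) ^ 2 - X ^ 2 * (X ^ 2 + 6) ^ 2)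
    simp only [map_mul, map_add, map_sub, map_pow, map_ofNat, map_one, aeval_X, eval_mul, eval_add,
      eval_sub, eval_pow, eval_ofNat, eval_one, eval_X] at this
    exact this.congr hv (by decide)
  have sw : Sp v ((6 * t ^ 2 + 1) ^ 2 + t ^ 2 * (t ^ 2 + 6) ^ 2) 2 := by
    have := ht.poly na ((6 * X ^ 2 + 1) ^ 2 + X ^ 2 * (X ^ 2 + 6) ^ 2)
    simp only [map_mul, map_add, map_pow, map_ofNat, map_one, aeval_X, eval_mul, eval_add,
      eval_pow, eval_ofNat, eval_one, eval_X] at this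
    exact this.congr hv (by decide)
  have sD : Sp v (pD (t ^ 2)) 0 := by
    have := (ht.pow na 2).poly na (2 * X ^ 4 - 9 * X ^ 3 + 31 * X ^ 2 - 78 * X + 5)
    simp only [map_mul, map_add, map_sub, map_pow, map_ofNat, aeval_X, eval_mul, eval_add,
      eval_sub, eval_pow, eval_ofNat, eval_X] at this
    exact this.congr hv (by decide)
  have sN : Sp v ((t ^ 2 + 6) ^ 3 * (6 * t ^ 2 + 1) *
      (5 * (t ^ 2) ^ 4 - 78 * (t ^ 2) ^ 3 + 31 * (t ^ 2) ^ 2 - 9 * t ^ 2 + 2) ^ 2) 10 := by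
    have := (ht.pow na 2).poly na ((X + 6) ^ 3 * (6 * X + 1) *
      (5 * X ^ 4 - 78 * X ^ 3 + 31 * X ^ 2 - 9 * X + 2) ^ 2)
    simp only [map_mul, map_add, map_sub, map_pow, map_ofNat, map_one, aeval_X, eval_mul, eval_add,
      eval_sub, eval_pow, eval_ofNat, eval_one, eval_X] at this
    exact this.congr hv (by decide)
  have ne : ∀ {r : F} {m : ℤ}, Sp v r m → ¬(13 : ℤ) ∣ m → r ≠ 0 := fun h k e => by
    have := h.unit hv k
    rw [e] at this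
    simp at this
  have sa : Sp v (pu t ^ 4 + pv t ^ 4) 10 := ((su.pow na 4).add na (sv.pow na 4)).congr hv (by decide)
  have sb : Sp v (pu t ^ 4 * pv t ^ 4) 9 := ((su.pow na 4).mul na (sv.pow na 4)).congr hv (by decide)
  have hΔ : (fam t).Δ ≠ 0 := by
    rw [fam, cv_delta]
    have := (sa.pow na 2).sub na ((sp_int na 4).mul na sb)
    exact mul_ne_zero (mul_ne_zero (by norm_num) (pow_ne_zero 2 (ne sb (by decide))))
      (by simpa using ne this (by decide))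
  obtain ⟨f, hf⟩ := tors_hom (u := pu t) (v := pv t)
    (w := (6 * t ^ 2 + 1) ^ 2 + t ^ 2 * (t ^ 2 + 6) ^ 2) (by rw [pu, pv]; ring)
    (ne su (by decide)) (ne sv (by decide)) (ne sw (by decide)) (ne (su.add na sv) (by decide)) hΔ
  obtain ⟨c1, c2⟩ := tors_card hp hv (by decide) sa sb (by decide) (by decide)
    (Finset.univ.filter fun z : ZMod 13 × ZMod 13 =>
      z.2 ^ 2 = z.1 ^ 3 + (10 : ℤ) * z.1 ^ 2 + (9 : ℤ) * z.1)
    (fun x y h => Finset.mem_filter.mpr ⟨Finset.mem_univ _, h⟩)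
  have c3 : (Finset.univ.filter fun z : ZMod 13 × ZMod 13 =>
      z.2 ^ 2 = z.1 ^ 3 + (10 : ℤ) * z.1 ^ 2 + (9 : ℤ) * z.1).card = 15 := by decide +kernel
  refine ⟨hΔ, tors_equiv f hf c1 (by rw [c3] at c2; exact c2), ?_⟩
  obtain ⟨y, hy⟩ := point_eq t hD
  have k := cv_ns hΔ hy
  refine one_le_rank (P := Point.some _ _ k) fun h => Point.some_ne_zero k
    (Big.eq_zero hp hv ⟨sa.le na, sb.le na⟩ ((big_some k).mpr ?_) h)
  have v1 := (((sp_int na 4).mul na (sv.pow na 2)).mul na sN).unit hv (by decide)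
  have v2 := sD.small hv (by decide)
  have v3 := v.pos hD
  rw [map_div₀, mul_assoc, mul_assoc (4 * pv t ^ 2), ← mul_assoc ((t ^ 2 + 6) ^ 3),
    show (4 : F) = ((4 : ℤ) : F) by norm_num, v1, v.map_pow, one_lt_div (by positivity)]
  nlinarith

/-- The absolute value induced by an embedding into the `p`-adic numbers. -/
lemma exists_pv {p : ℕ} [Fact p.Prime] (ι : F →+* ℚ_[p]) :
    ∃ v : AbsoluteValue F ℝ, PV p v ∧ ∀ x, v x = ‖ι x‖ := by
  let v : AbsoluteValue F ℝ := (NormedField.toAbsoluteValue ℚ_[p]).comp ι.injective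
  have hv : ∀ z, v z = ‖ι z‖ := fun z => rfl
  refine ⟨v, ⟨fun r s => ?_, fun n => ?_, fun x hx => ?_, fun x hx => ?_⟩, hv⟩
  · rw [hv, hv, hv, map_add]
    exact Padic.nonarchimedean _ _
  · rw [hv, map_intCast, Padic.norm_intCast_lt_one_iff]
  · rw [hv] at hx
    rw [hv, hv, map_natCast, Padic.norm_p]
    have := (Padic.norm_le_pow_iff_norm_lt_pow_add_one (ι x) (-1)).mpr (by simpa using hx)
    simpa using this
  · rw [hv] at hx
    obtain ⟨n, hn⟩ := PadicInt.exists_mem_range (⟨ι x, hx⟩ : ℤ_[p])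
    refine ⟨n, ?_⟩
    have := PadicInt.mem_nonunits.mp ((IsLocalRing.mem_maximalIdeal _).mp hn.2)
    rw [hv, map_sub, Int.cast_natCast, map_natCast]
    exact this

instance fact13 : Fact (Nat.Prime 13) := ⟨by norm_num⟩

lemma exists_emb : ∃ ι : RatFunc ℚ →+* ℚ_[13], ‖ι RatFunc.X - 6‖ < 1 := by
  have h := (Algebraic.countable ℚ ℚ_[13]).dense_compl ℚ_[13]
  obtain ⟨z, hz, hz'⟩ := h.exists_mem_open (Metric.isOpen_ball (x := (6 : ℚ_[13])) (ε := 1))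
    ⟨6, by simp⟩
  have inj : Function.Injective (aeval (R := ℚ) z) := transcendental_iff_injective.mp hz
  refine ⟨RatFunc.liftRingHom (aeval z).toRingHom
    (nonZeroDivisors_le_comap_nonZeroDivisors_of_injective _ inj), ?_⟩
  rw [← RatFunc.algebraMap_X, RatFunc.liftRingHom_algebraMap]
  simpa [dist_eq_norm] using hz'

theorem generic [DecidableEq (RatFunc ℚ)] :
    (fam (RatFunc.X : RatFunc ℚ)).Δ ≠ 0 ∧
      (∀ c : ℚ, (fam (RatFunc.X : RatFunc ℚ)).c₄ ^ 3 ≠ RatFunc.C c * (fam RatFunc.X).Δ) ∧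
      Nonempty (AddCommGroup.torsion (fam (RatFunc.X : RatFunc ℚ)).Point ≃+ ZMod 2 × ZMod 8) ∧
      1 ≤ Module.rank ℤ (fam (RatFunc.X : RatFunc ℚ)).Point := by
  obtain ⟨ι, hι⟩ := exists_emb
  obtain ⟨v, hv, e⟩ := exists_pv ι
  have ht : Sp v RatFunc.X 6 := by
    rw [Sp, e, map_sub, map_intCast]
    exact_mod_cast hι
  have inj := RatFunc.algebraMap_injective ℚ
  have hD : pD ((RatFunc.X : RatFunc ℚ) ^ 2) ≠ 0 := by
    intro h
    have k : (2 * (X ^ 2) ^ 4 - 9 * (X ^ 2) ^ 3 + 31 * (X ^ 2) ^ 2 - 78 * X ^ 2 + 5 : ℚ[X]) = 0 := by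
      apply inj
      simpa only [pD, map_mul, map_add, map_sub, map_pow, map_ofNat, map_zero,
        RatFunc.algebraMap_X] using h
    simpa using congrArg (eval 0) k
  obtain ⟨h1, h2, h3⟩ := core hv ht hD
  refine ⟨h1, fun c h => ?_, h2, h3⟩
  rw [fam, cv_c4, cv_delta] at h
  obtain ⟨U, hU⟩ : ∃ U : ℚ[X], U = 2 * X * (X ^ 2 + 6) * (6 * X ^ 2 + 1) := ⟨_, rfl⟩
  obtain ⟨V, hV⟩ : ∃ V : ℚ[X], V = (6 * X ^ 2 + 1) ^ 2 - X ^ 2 * (X ^ 2 + 6) ^ 2 := ⟨_, rfl⟩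
  have eU : pu (RatFunc.X : RatFunc ℚ) = algebraMap _ _ U := by
    simp only [hU, pu, map_mul, map_add, map_pow, map_ofNat, map_one, RatFunc.algebraMap_X]
  have eV : pv (RatFunc.X : RatFunc ℚ) = algebraMap _ _ V := by
    simp only [hV, pv, map_mul, map_add, map_sub, map_pow, map_ofNat, map_one,
      RatFunc.algebraMap_X]
  rw [eU, eV] at h
  have k : (16 * ((U ^ 4 + V ^ 4) ^ 2 - 3 * (U ^ 4 * V ^ 4))) ^ 3 =
      C c * (16 * (U ^ 4 * V ^ 4) ^ 2 * ((U ^ 4 + V ^ 4) ^ 2 - 4 * (U ^ 4 * V ^ 4))) := by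
    apply inj
    simpa only [map_mul, map_add, map_sub, map_pow, map_ofNat, RatFunc.algebraMap_C] using h
  have u0 : eval 0 U = 0 := by simp [hU]
  have v0 : eval 0 V = 1 := by simp [hV]
  have := congrArg (eval 0) k
  simp [u0, v0] at this

end Pool.Agent.MP_6a61d2_nt
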